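import Pool.Agent.Helper83_Men.Mcs

/-!
# Squad MEN: construction along an increasing sequence of lower sets (LT)
-/

open MeasureTheory Set

namespace Pool.Agent.Men.RR.H83

/-- The state of the recursion. -/
structure LS {Λ Q : Type} [LinearOrder Λ] (N : Set (Cond ℕ Λ)) (𝒟 : Set (Set (Cond ℕ Λ)))
    (J : ℕ → Set Λ) (pos : Q → Cond ℕ Λ) (good : ℕ → Set Q) (n : ℕ) where
  p : Cond ℕ Λ
  G : Pt ℕ Λ → Set (Cond ℕ Λ)
  S : Pt ℕ Λ → Q
  gen : Gen N 𝒟 (J n) p G
  meas : Meas S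
  dep : DepFun (J n) S
  good' : ∀ y ∈ p.body, S y ∈ good n ∧ (pos (S y)).restr (J n) ∈ G y

theorem measurableSet_and {Ω : Type*} [MeasurableSpace Ω] {P Q : Ω → Prop}
    (hP : MeasurableSet {ω | P ω}) (hQ : MeasurableSet {ω | Q ω}) :
    MeasurableSet {ω | P ω ∧ Q ω} := hP.inter hQ

theorem lt_step {Λ Q : Type} [LinearOrder Λ] [WellFoundedLT Λ] [Countable Λ] [Countable Q]
    (N : Set (Cond ℕ Λ)) (𝒟 : Set (Set (Cond ℕ Λ))) (hN : Clo N)
    (J : ℕ → Set Λ) (hJ : ∀ n, IsLowerSet (J n)) (hJm : Monotone J)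
    (hR : ∀ n, RelS N 𝒟 (J n) (J (n + 1)))
    (pos : Q → Cond ℕ Λ) (good : ℕ → Set Q) (Rel : ℕ → Q → Q → Prop)
    (hpos : ∀ n, ∀ S ∈ good n, pos S ∈ N)
    (hst : ∀ n p G, Gen N 𝒟 (J n) p G → ∀ y ∈ p.body, ∀ S ∈ good n,
      (pos S).restr (J n) ∈ G y → ∃ S' ∈ good (n + 1), Rel n S S' ∧ pos S' ≤ pos S ∧
        (pos S').restr (J n) ∈ G y) (n : ℕ) (X : LS N 𝒟 J pos good n) :
    ∃ X' : LS N 𝒟 J pos good (n + 1), (∀ i ∈ J n, ∀ y, X'.p.T i y = X.p.T i y) ∧
      ∀ y ∈ X'.p.body, y ∈ X.p.body ∧ Rel n (X.S y) (X'.S y) ∧ pos (X'.S y) ≤ pos (X.S y) := by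
  classical
  obtain ⟨y0, hy0⟩ := X.p.body_nonempty
  haveI : Nonempty Q := ⟨X.S y0⟩
  obtain ⟨S', h1, h2, h3⟩ := mcs (Pt ℕ Λ) Q
    (fun y S' => S' ∈ good (n + 1) ∧ Rel n (X.S y) S' ∧ pos S' ≤ pos (X.S y) ∧
      (pos S').restr (J n) ∈ X.G y) (by
    intro c
    refine measurableSet_and (MeasurableSet.const _) (measurableSet_and ?_
      (measurableSet_and ?_ ?_))
    · exact Meas.set X.meas (P := fun S _ => Rel n S c) fun S => MeasurableSet.const _
    · exact Meas.set X.meas (P := fun S _ => pos c ≤ pos S) fun S => MeasurableSet.const _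
    · exact X.gen.meas _)
  have h4 : ∀ y ∈ X.p.body, S' y ∈ good (n + 1) ∧ Rel n (X.S y) (S' y) ∧
      pos (S' y) ≤ pos (X.S y) ∧ (pos (S' y)).restr (J n) ∈ X.G y := by
    intro y hy
    apply h2
    obtain ⟨S1, h5, h6⟩ := hst n X.p X.G X.gen y hy (X.S y) (X.good' y hy).1 (X.good' y hy).2
    exact ⟨S1, h5, h6⟩
  have h5 : DepFun (J n) S' := by
    intro y y' h
    apply h3
    intro c
    simp only [X.dep y y' h, X.gen.dep y y' h]
  let r0 : Q → N := fun S => if hS : pos S ∈ N then ⟨pos S, hS⟩ else ⟨Cond.one ℕ Λ, hN.one⟩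
  have hr0 : ∀ y ∈ X.p.body, (r0 (S' y)).1 = pos (S' y) := by
    intro y hy
    have : pos (S' y) ∈ N := hpos _ _ (h4 y hy).1
    simp only [r0, this, dif_pos]
  obtain ⟨p', G', h6, h7, h8⟩ := hR n X.p X.G X.gen (fun y => r0 (S' y))
    (Meas.comp h1 r0) (fun y y' h => by simp only [h5 y y' h])
    (fun y hy => by
      change (r0 (S' y)).1.restr (J n) ∈ X.G y
      rw [hr0 y hy]
      exact (h4 y hy).2.2.2)
  have h9 : ∀ y ∈ p'.body, y ∈ X.p.body := by
    intro y hy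
    rw [X.gen.below.body_eq]
    intro i hi
    rw [← h7 i hi y]
    exact hy i
  refine ⟨⟨p', G', S', h6, h1, fun y y' h => h5 y y' fun i hi => h i (hJm (Nat.le_succ n) hi),
    fun y hy => ⟨(h4 y (h9 y hy)).1, ?_⟩⟩, h7, fun y hy => ⟨h9 y hy, (h4 y (h9 y hy)).2.1,
    (h4 y (h9 y hy)).2.2.1⟩⟩
  have := h8 y hy
  change (r0 (S' y)).1.restr (J (n + 1)) ∈ G' y at this
  rwa [hr0 y (h9 y hy)] at this

theorem lt : LtStmt := by
  intro Λ Q _ _ _ _ N 𝒟 hN J hJ hJm hR pos good Rel hpos hst p0 G0 hG0 S0 hS0m hS0d hS0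
  classical
  choose nx hnx1 hnx2 using lt_step N 𝒟 hN J hJ hJm hR pos good Rel hpos hst
  let X : (n : ℕ) → LS N 𝒟 J pos good n := fun n =>
    Nat.rec ⟨p0, G0, S0, hG0, hS0m, hS0d, hS0⟩ (fun n X => nx n X) n
  have hX0 : (X 0).p = p0 := rfl
  have hXS0 : (X 0).S = S0 := rfl
  have hX1 : ∀ n, X (n + 1) = nx n (X n) := fun _ => rfl
  have hT1 : ∀ n, ∀ i ∈ J n, ∀ y, (X (n + 1)).p.T i y = (X n).p.T i y := by
    intro n i hi y
    rw [hX1]
    exact hnx1 n (X n) i hi y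
  have hT : ∀ m n, m ≤ n → ∀ i ∈ J m, ∀ y, (X n).p.T i y = (X m).p.T i y := by
    intro m n hmn
    induction n, hmn using Nat.le_induction with
    | base => intro i _ y; rfl
    | succ n hmn ih =>
      intro i hi y
      rw [hT1 n i (hJm hmn hi) y]
      exact ih i hi y
  -- the limit condition
  obtain ⟨q, hq⟩ : ∃ q : Cond ℕ Λ, (∀ n, ∀ i ∈ J n, ∀ y, q.T i y = (X n).p.T i y) ∧
      ∀ i, (∀ n, i ∉ J n) → ∀ y, q.T i y = Alph.full ℕ := by
    refine ⟨⟨fun i y => if h : ∃ n, i ∈ J n then (X (Nat.find h)).p.T i y else Alph.full ℕ,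
      univ, ?_, to_countable _, ?_, ?_, ?_⟩, ?_, ?_⟩
    · intro i y
      split_ifs with h
      · exact (X (Nat.find h)).p.good i y
      · exact Alph.good_full
    · intro i hi
      exact (hi trivial).elim
    · intro i y y' h
      split_ifs with h'
      · exact (X (Nat.find h')).p.T_congr fun j hj => h j trivial hj
      · rfl
    · intro i
      by_cases h : ∃ n, i ∈ J n
      · simpa only [h, dif_pos] using (X (Nat.find h)).p.meas i
      · simp only [h, dif_neg, not_false_eq_true]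
        exact measurable_const
    · intro n i hi y
      have h : ∃ n, i ∈ J n := ⟨n, hi⟩
      simp only [h, dif_pos]
      exact (hT _ _ (Nat.find_min' h hi) i (Nat.find_spec h) y).symm
    · intro i hi y
      have h : ¬ ∃ n, i ∈ J n := by
        rintro ⟨n, hn⟩
        exact hi n hn
      simp only [h, dif_neg, not_false_eq_true]
  have hqX : ∀ n, ∀ y ∈ q.body, y ∈ (X n).p.body := by
    intro n y hy
    rw [(X n).gen.below.body_eq]
    intro i hi
    rw [← hq.1 n i hi y]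
    exact hy i
  have hstep : ∀ n, ∀ y ∈ q.body, Rel n ((X n).S y) ((X (n + 1)).S y) ∧
      pos ((X (n + 1)).S y) ≤ pos ((X n).S y) := by
    intro n y hy
    have h1 := hqX (n + 1) y hy
    rw [hX1] at h1 ⊢
    exact (hnx2 n (X n) y h1).2
  have hpos' : ∀ y ∈ q.body, ∀ m n, m ≤ n → pos ((X n).S y) ≤ pos ((X m).S y) := by
    intro y hy m n hmn
    induction n, hmn using Nat.le_induction with
    | base => exact le_refl _
    | succ n hmn ih => exact (hstep n y hy).2.trans ih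
  refine ⟨q, fun n => (X n).S, ?_, fun i hi y => hq.1 0 i hi y, hXS0, fun n => (X n).meas,
    fun n => (X n).dep, ?_⟩
  · intro i hi y
    exact hq.2 i (fun n hn => hi (mem_iUnion.2 ⟨n, hn⟩)) y
  · intro y hy n
    refine ⟨((X n).good' y (hqX n y hy)).1, (hstep n y hy).1, (hstep n y hy).2, ?_⟩
    intro i hi
    obtain ⟨k, hk⟩ := mem_iUnion.1 hi
    have h1 : i ∈ J (max n k) := hJm (le_max_right _ _) hk
    have h2 := (X (max n k)).gen.pt y (hqX _ y hy) _ ((X (max n k)).good' y (hqX _ y hy)).2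
    rw [Cond.restr_body] at h2
    exact Cond.on_mono (hpos' y hy n (max n k) (le_max_left _ _)) (hJ _) h2 i h1

end Pool.Agent.Men.RR.H83
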