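import Pool.Agent.Helper22_Men.Stmts

/-!
# Squad MEN: measurable countable choice (MCS)
-/

open MeasureTheory Set

namespace Pool.Agent.Men.RR.H83

theorem Meas.bind {α Q β : Type*} [MeasurableSpace α] [Countable Q] {f : α → Q}
    {g : Q → α → β} (hf : Meas f) (hg : ∀ q, Meas (g q)) : Meas fun a => g (f a) a := by
  intro c
  have : {a | g (f a) a = c} = ⋃ q : Q, {a | f a = q} ∩ {a | g q a = c} := by
    ext a
    simp
  rw [this]
  exact MeasurableSet.iUnion fun q => (hf q).inter (hg q c)

theorem Meas.const {α β : Type*} [MeasurableSpace α] (b : β) : Meas fun _ : α => b := by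
  intro c
  exact MeasurableSet.const _

theorem Meas.comp {α Q β : Type*} [MeasurableSpace α] [Countable Q] {f : α → Q}
    (hf : Meas f) (g : Q → β) : Meas fun a => g (f a) :=
  Meas.bind hf fun q => Meas.const (g q)

theorem Meas.set {α Q : Type*} [MeasurableSpace α] [Countable Q] {f : α → Q}
    (hf : Meas f) {P : Q → α → Prop} (hP : ∀ q, MeasurableSet {a | P q a}) :
    MeasurableSet {a | P (f a) a} := by
  have : {a | P (f a) a} = ⋃ q : Q, {a | f a = q} ∩ {a | P q a} := by
    ext a
    simp
  rw [this]
  exact MeasurableSet.iUnion fun q => (hf q).inter (hP q)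

theorem mcs : McsStmt := by
  intro α C _ _ _ V hV
  classical
  obtain ⟨g, hg⟩ := exists_surjective_nat C
  let n : α → ℕ := fun a => if h : ∃ n, V a (g n) then Nat.find h else 0
  have hn : ∀ a, (∃ c, V a c) → V a (g (n a)) := by
    rintro a ⟨c, hc⟩
    obtain ⟨m, rfl⟩ := hg c
    have h : ∃ n, V a (g n) := ⟨m, hc⟩
    simp only [n, h, dif_pos]
    exact Nat.find_spec h
  refine ⟨fun a => g (n a), ?_, hn, ?_⟩
  · have hm : Meas n := by
      intro k
      have : {a | n a = k} = ({a | V a (g k)} ∩ ⋂ m : {m // m < k}, {a | V a (g m)}ᶜ) ∪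
          ({_a | k = 0} ∩ ⋂ m : ℕ, {a | V a (g m)}ᶜ) := by
        ext a
        simp only [mem_ofPred_eq, mem_union, mem_inter_iff, mem_iInter, mem_compl_iff]
        by_cases h : ∃ n, V a (g n)
        · simp only [n, h, dif_pos, Nat.find_eq_iff]
          constructor
          · rintro ⟨h1, h2⟩
            exact Or.inl ⟨h1, fun m => h2 m.1 m.2⟩
          · rintro (⟨h1, h2⟩ | ⟨_, h2⟩)
            · exact ⟨h1, fun m hm => h2 ⟨m, hm⟩⟩
            · obtain ⟨m, hm⟩ := h
              exact (h2 m hm).elim
        · simp only [n, h, dif_neg, not_false_eq_true]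
          constructor
          · rintro rfl
            exact Or.inr ⟨rfl, fun m hm => h ⟨m, hm⟩⟩
          · rintro (⟨h1, _⟩ | ⟨h1, _⟩)
            · exact (h ⟨_, h1⟩).elim
            · exact h1.symm
      rw [this]
      refine ((hV _).inter (MeasurableSet.iInter fun m => (hV _).compl)).union
        ((MeasurableSet.const _).inter (MeasurableSet.iInter fun m => (hV _).compl))
    exact Meas.comp hm g
  · intro a a' h
    have : n a = n a' := by
      simp only [n, h]
    simp only [this]

end Pool.Agent.Men.RR.H83
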