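import Pool.Agent.Helper22_Men.Stmts

/-!
# Squad MEN: the tree of the lemma ST (pure part)
-/

open MeasureTheory Set

namespace Pool.Agent.Men.RR.H83

/-- The pure data of the construction. -/
structure PD {Q : Type} (TT : Q → Set Node) (nd : Q → Node) (dg : Q → ℕ → ℕ)
    (nxt : Q → ℕ → Q) (G : Set Q) : Prop where
  tree : ∀ S ∈ G, Tree (TT S)
  hnd : ∀ S ∈ G, nd S ∈ TT S
  mono : ∀ S ∈ G, StrictMono (dg S)
  hnxt : ∀ S ∈ G, ∀ i, nxt S i ∈ G
  hsub : ∀ S ∈ G, ∀ i, TT (nxt S i) ⊆ sub (TT S) (nd S ++ [dg S i])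

/-- Iteration of the successor map. -/
def run {Q : Type} (nxt : Q → ℕ → Q) : Q → List ℕ → Q
  | S, [] => S
  | S, i :: w => run nxt (nxt S i) w

/-- The tree of the nodes above a state. -/
def BB {Q : Type} (nd : Q → Node) (nxt : Q → ℕ → Q) (S : Q) : Set Node :=
  {ρ | ∃ w, ρ <+: nd (run nxt S w)}

section
variable {Q : Type} {TT : Q → Set Node} {nd : Q → Node} {dg : Q → ℕ → ℕ}
  {nxt : Q → ℕ → Q} {G : Set Q}

theorem PD.exists_len (h : PD TT nd dg nxt G) {S : Q} (hS : S ∈ G) (n : ℕ) :
    ∃ ρ ∈ TT S, ρ.length = n := by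
  induction n with
  | zero => exact ⟨[], (h.tree S hS).nil, rfl⟩
  | succ n ih =>
    obtain ⟨ρ, h1, h2⟩ := ih
    obtain ⟨a, ha⟩ := (h.tree S hS).ext ρ h1
    exact ⟨_, ha, by simp [h2]⟩

theorem PD.cons_mem (h : PD TT nd dg nxt G) {S : Q} (hS : S ∈ G) (i : ℕ) :
    nd S ++ [dg S i] ∈ TT S := by
  obtain ⟨ρ, h1, h2⟩ := h.exists_len (h.hnxt S hS i) (nd S ++ [dg S i]).length
  obtain ⟨h3, h4⟩ := h.hsub S hS i h1
  rcases h4 with h4 | h4
  · rwa [h4.eq_of_length h2] at h3
  · rwa [← h4.eq_of_length h2.symm] at h3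

theorem PD.step (h : PD TT nd dg nxt G) {S : Q} (hS : S ∈ G) (i : ℕ) :
    nd S ++ [dg S i] <+: nd (nxt S i) := by
  have hS' := h.hnxt S hS i
  rcases (h.hsub S hS i (h.hnd _ hS')).2 with h1 | h1
  · by_cases h2 : (nd (nxt S i)).length = (nd S ++ [dg S i]).length
    · rw [h1.eq_of_length h2]
    · exfalso
      have h3 : (nd (nxt S i)).length < (nd S ++ [dg S i]).length :=
        lt_of_le_of_ne h1.length_le h2
      have key : ∀ j, nd (nxt S i) ++ [dg (nxt S i) j] <+: nd S ++ [dg S i] := by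
        intro j
        rcases (h.hsub S hS i (h.cons_mem hS' j)).2 with h4 | h4
        · exact h4
        · have h5 := h4.length_le
          have h6 : (nd (nxt S i) ++ [dg (nxt S i) j]).length = (nd (nxt S i)).length + 1 := by
            simp
          rw [h6] at h5
          rw [h4.eq_of_length (by rw [h6]; omega)]
      have h7 : nd (nxt S i) ++ [dg (nxt S i) 0] = nd (nxt S i) ++ [dg (nxt S i) 1] := by
        rcases List.prefix_or_prefix_of_prefix (key 0) (key 1) with h8 | h8
        · exact h8.eq_of_length (by simp)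
        · exact (h8.eq_of_length (by simp)).symm
      have h8 : dg (nxt S i) 0 = dg (nxt S i) 1 := by simpa using h7
      exact absurd h8 (h.mono _ hS' Nat.zero_lt_one).ne
  · exact h1

theorem PD.run_mem (h : PD TT nd dg nxt G) (w : List ℕ) : ∀ {S : Q}, S ∈ G →
    run nxt S w ∈ G := by
  induction w with
  | nil => intro S hS; exact hS
  | cons i w ih => intro S hS; exact ih (h.hnxt S hS i)

theorem PD.nd_run (h : PD TT nd dg nxt G) (w : List ℕ) : ∀ {S : Q}, S ∈ G →
    nd S <+: nd (run nxt S w) := by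
  induction w with
  | nil => intro S _; exact List.prefix_rfl
  | cons i w ih =>
    intro S hS
    exact ((List.prefix_append _ _).trans (h.step hS i)).trans (ih (h.hnxt S hS i))

theorem PD.tt_run (h : PD TT nd dg nxt G) (w : List ℕ) : ∀ {S : Q}, S ∈ G →
    TT (run nxt S w) ⊆ TT S := by
  induction w with
  | nil => intro S _; exact Subset.rfl
  | cons i w ih =>
    intro S hS
    exact (ih (h.hnxt S hS i)).trans fun ρ hρ => (h.hsub S hS i hρ).1

theorem run_append (w : List ℕ) (i : ℕ) : ∀ S : Q, run nxt S (w ++ [i]) =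
    nxt (run nxt S w) i := by
  induction w with
  | nil => intro S; rfl
  | cons j w ih => intro S; exact ih (nxt S j)

theorem PD.bb_subset (h : PD TT nd dg nxt G) {S : Q} (hS : S ∈ G) : BB nd nxt S ⊆ TT S := by
  rintro ρ ⟨w, hw⟩
  exact h.tt_run w hS ((h.tree _ (h.run_mem w hS)).mem_of_isPrefix hw (h.hnd _ (h.run_mem w hS)))

theorem PD.supf (h : PD TT nd dg nxt G) {S : Q} (hS : S ∈ G) : Supf (BB nd nxt S) := by
  refine ⟨⟨[], List.nil_prefix⟩, ?_, ?_⟩
  · rintro σ a ⟨w, hw⟩
    exact ⟨w, (List.prefix_append _ _).trans hw⟩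
  · rintro σ ⟨w, hw⟩
    refine ⟨nd (run nxt S w), ⟨w, List.prefix_rfl⟩, hw, ?_⟩
    have hm := h.run_mem w hS
    apply Set.infinite_of_forall_exists_gt
    intro n
    refine ⟨dg (run nxt S w) (n + 1), ⟨w ++ [n + 1], ?_⟩, ?_⟩
    · rw [run_append]
      exact h.step hm (n + 1)
    · exact Nat.lt_of_lt_of_le (Nat.lt_succ_self n) ((h.mono _ hm).id_le (n + 1))

/-- Branches of the tree. -/
theorem PD.branch (h : PD TT nd dg nxt G) {S : Q} (hS : S ∈ G) {t : Br ℕ}
    (ht : t ∈ body ℕ (BB nd nxt S)) : nd S = pre t (nd S).length ∧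
      ∃ i, dg S i = t (nd S).length ∧ t ∈ body ℕ (BB nd nxt (nxt S i)) := by
  have h1 : nd S = pre t (nd S).length := by
    obtain ⟨w, hw⟩ := ht (nd S).length
    have h2 := h.nd_run w hS
    rcases List.prefix_or_prefix_of_prefix h2 hw with h3 | h3
    · exact h3.eq_of_length (by simp)
    · exact (h3.eq_of_length (by simp)).symm
  refine ⟨h1, ?_⟩
  have key : ∀ m, (nd S).length < m → ∃ i w, pre t m <+: nd (run nxt (nxt S i) w) ∧
      dg S i = t (nd S).length := by
    intro m hm
    obtain ⟨w, hw⟩ := ht m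
    cases w with
    | nil =>
      exfalso
      have := hw.length_le
      simp only [length_pre, run] at this
      omega
    | cons i w =>
      refine ⟨i, w, hw, ?_⟩
      have h2 : nd S ++ [dg S i] <+: nd (run nxt (nxt S i) w) :=
        (h.step hS i).trans (h.nd_run w (h.hnxt S hS i))
      have h3 : pre t ((nd S).length + 1) <+: nd (run nxt (nxt S i) w) :=
        (pre_isPrefix t hm).trans hw
      have h4 : nd S ++ [dg S i] = pre t ((nd S).length + 1) := by
        rcases List.prefix_or_prefix_of_prefix h2 h3 with h5 | h5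
        · exact h5.eq_of_length (by simp)
        · exact (h5.eq_of_length (by simp)).symm
      rw [pre_succ, ← h1] at h4
      have h5 : [dg S i] = [Alph.toN (t (nd S).length)] := List.append_cancel_left h4
      have h6 : dg S i = Alph.toN (t (nd S).length) := by simpa using h5
      exact h6
  obtain ⟨i, w, hw, hi⟩ := key ((nd S).length + 1) (Nat.lt_succ_self _)
  refine ⟨i, hi, fun m => ?_⟩
  obtain ⟨i', w', hw', hi'⟩ := key (m + (nd S).length + 1) (by omega)
  have : i' = i := (h.mono S hS).injective (hi'.trans hi.symm)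
  subst this
  exact ⟨w', (pre_isPrefix t (by omega)).trans hw'⟩

end

end Pool.Agent.Men.RR.H83
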