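import Pool.Agent.Helper83_Men.Mcs
import Pool.Agent.Helper83_Men.StPure

/-!
# Squad MEN: construction of a superperfect tree over states (ST)
-/

open MeasureTheory Set

namespace Pool.Agent.Men.RR.H83

theorem measurableSet_subset_nodes {Ω : Type*} [MeasurableSpace Ω] {f g : Ω → Set Node}
    (hf : Measurable f) (hg : Measurable g) : MeasurableSet {ω | f ω ⊆ g ω} := by
  have : {ω | f ω ⊆ g ω} = ⋂ ρ : Node, {ω | ρ ∈ f ω → ρ ∈ g ω} := by
    ext ω
    simp only [mem_ofPred_eq, mem_iInter]
    exact ⟨fun h ρ hρ => h hρ, fun h ρ hρ => h ρ hρ⟩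
  rw [this]
  exact MeasurableSet.iInter fun ρ => measurableSet_imp (hf (measurableSet_mem_node ρ))
    (hg (measurableSet_mem_node ρ))

theorem st : StStmt := by
  intro Λ Q _ _ _ _ δ p hp pos good Rel hgd hgm hg1 hg2 S0 hS0m hS0d hS0
  classical
  haveI : Nonempty Q := by
    obtain ⟨y, hy⟩ := p.body_nonempty
    exact ⟨S0 y⟩
  -- choice of the nodes
  let W : Q → Node → ℕ → Pt ℕ Λ → ℕ × Q → Prop := fun S τ m y c =>
    m ≤ c.1 ∧ c.2 ∈ good y ∧ Rel S c.2 ∧ pos c.2 ≤ pos S ∧
      (pos c.2).T δ y ⊆ sub ((pos S).T δ y) (τ ++ [c.1])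
  have hWm : ∀ S τ m c, MeasurableSet {y | W S τ m y c} := by
    intro S τ m c
    refine (MeasurableSet.const _).inter ((hgm _).inter ((MeasurableSet.const _).inter
      ((MeasurableSet.const _).inter ?_)))
    exact measurableSet_subset_nodes ((pos c.2).meas δ)
      (measurable_sub measurable_const ((pos S).meas δ))
  have hT : ∀ (q : Cond ℕ Λ) (y y' : Pt ℕ Λ), (∀ i ∈ Iio δ, y i = y' i) → q.T δ y = q.T δ y' :=
    fun q y y' h => q.T_congr fun j hj => h j hj
  have hWd : ∀ S τ m y y', (∀ i ∈ Iio δ, y i = y' i) → ∀ c, W S τ m y c ↔ W S τ m y' c := by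
    intro S τ m y y' h c
    simp only [W, hgd y y' h, hT _ y y' h]
  have hnd : ∀ S : Q, ∃ f : Pt ℕ Λ → Node, Meas f ∧
      (∀ y, (∃ τ, τ ∈ (pos S).T δ y ∧ ∀ m, ∃ c, W S τ m y c) →
        f y ∈ (pos S).T δ y ∧ ∀ m, ∃ c, W S (f y) m y c) ∧ DepFun (Iio δ) f := by
    intro S
    obtain ⟨f, h1, h2, h3⟩ := mcs (Pt ℕ Λ) Node
      (fun y τ => τ ∈ (pos S).T δ y ∧ ∀ m, ∃ c, W S τ m y c) (by
        intro τ
        refine ((pos S).meas δ (measurableSet_mem_node τ)).inter ?_
        have : {y | ∀ m, ∃ c, W S τ m y c} = ⋂ m, ⋃ c, {y | W S τ m y c} := by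
          ext y
          simp
        change MeasurableSet {y | ∀ m, ∃ c, W S τ m y c}
        rw [this]
        exact MeasurableSet.iInter fun m => MeasurableSet.iUnion fun c => hWm S τ m c)
    refine ⟨f, h1, h2, fun y y' h => h3 y y' fun τ => ?_⟩
    rw [hT _ y y' h]
    refine and_congr Iff.rfl (forall_congr' fun m => exists_congr fun c => hWd S τ m y y' h c)
  choose nd hndm hnd1 hndd using hnd
  -- choice of the successors
  have hnx : ∀ (S : Q) (m : ℕ), ∃ f : Pt ℕ Λ → ℕ × Q, Meas f ∧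
      (∀ y, (∃ c, W S (nd S y) m y c) → W S (nd S y) m y (f y)) ∧ DepFun (Iio δ) f := by
    intro S m
    obtain ⟨f, h1, h2, h3⟩ := mcs (Pt ℕ Λ) (ℕ × Q) (fun y c => W S (nd S y) m y c) (by
      intro c
      exact Meas.set (hndm S) (P := fun τ y => W S τ m y c) fun τ => hWm S τ m c)
    refine ⟨f, h1, h2, fun y y' h => h3 y y' fun c => ?_⟩
    rw [hndd S y y' h]
    exact hWd S _ m y y' h c
  choose nx hnxm hnx1 hnxd using hnx
  -- the sequence of successors
  let A : Q → ℕ → Pt ℕ Λ → ℕ × Q := fun S i =>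
    Nat.rec (nx S 0) (fun _ f y => nx S ((f y).1 + 1) y) i
  have hA0 : ∀ S y, A S 0 y = nx S 0 y := fun _ _ => rfl
  have hA1 : ∀ S i y, A S (i + 1) y = nx S ((A S i y).1 + 1) y := fun _ _ _ => rfl
  have hAm : ∀ S i, Meas (A S i) := by
    intro S i
    induction i with
    | zero => exact hnxm S 0
    | succ i ih => exact Meas.bind (g := fun c y => nx S (c.1 + 1) y) ih fun c => hnxm S _
  have hAd : ∀ S i, DepFun (Iio δ) (A S i) := by
    intro S i
    induction i with
    | zero => exact hnxd S 0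
    | succ i ih =>
      intro y y' h
      rw [hA1, hA1, ih y y' h]
      exact hnxd S _ y y' h
  let dg : Pt ℕ Λ → Q → ℕ → ℕ := fun y S i => (A S i y).1
  let nxt : Pt ℕ Λ → Q → ℕ → Q := fun y S i => (A S i y).2
  have hAW : ∀ y ∈ p.body, ∀ S ∈ good y, ∀ i, ∃ m, W S (nd S y) m y (A S i y) := by
    intro y hy S hS i
    have h1 : (nd S y) ∈ (pos S).T δ y ∧ ∀ m, ∃ c, W S (nd S y) m y c := by
      apply hnd1
      obtain ⟨τ, h2, h3⟩ := hg2 y hy S hS
      refine ⟨τ, h2, fun m => ?_⟩
      obtain ⟨a, ha, S', h4, h5, h6, h7⟩ := h3 m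
      exact ⟨(a, S'), ha, h4, h5, h6, h7⟩
    cases i with
    | zero => exact ⟨0, hnx1 S 0 y (h1.2 0)⟩
    | succ i => exact ⟨_, hnx1 S _ y (h1.2 ((A S i y).1 + 1))⟩
  have hmono : ∀ y ∈ p.body, ∀ S ∈ good y, StrictMono (dg y S) := by
    intro y hy S hS
    apply strictMono_nat_of_lt_succ
    intro i
    have h1 : (nd S y) ∈ (pos S).T δ y ∧ ∀ m, ∃ c, W S (nd S y) m y c := by
      apply hnd1
      obtain ⟨τ, h2, h3⟩ := hg2 y hy S hS
      refine ⟨τ, h2, fun m => ?_⟩
      obtain ⟨a, ha, S', h4, h5, h6, h7⟩ := h3 m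
      exact ⟨(a, S'), ha, h4, h5, h6, h7⟩
    have h2 := (hnx1 S ((A S i y).1 + 1) y (h1.2 _)).1
    exact h2
  have hPD : ∀ y ∈ p.body, PD (fun S => (pos S).T δ y) (fun S => nd S y) (dg y) (nxt y)
      (good y) := by
    intro y hy
    refine ⟨fun S _ => Alph.tree _ ((pos S).good δ y), ?_, hmono y hy, ?_, ?_⟩
    · intro S hS
      have h1 : (nd S y) ∈ (pos S).T δ y ∧ ∀ m, ∃ c, W S (nd S y) m y c := by
        apply hnd1
        obtain ⟨τ, h2, h3⟩ := hg2 y hy S hS
        refine ⟨τ, h2, fun m => ?_⟩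
        obtain ⟨a, ha, S', h4, h5, h6, h7⟩ := h3 m
        exact ⟨(a, S'), ha, h4, h5, h6, h7⟩
      exact h1.1
    · intro S hS i
      obtain ⟨m, hm⟩ := hAW y hy S hS i
      exact hm.2.1
    · intro S hS i
      obtain ⟨m, hm⟩ := hAW y hy S hS i
      exact hm.2.2.2.2
  -- iteration
  have hrunm : ∀ w : List ℕ, ∀ S : Q, Meas fun y => run (nxt y) S w := by
    intro w
    induction w with
    | nil => intro S; exact Meas.const S
    | cons i w ih =>
      intro S
      exact Meas.bind (f := fun y => (A S i y).2) (g := fun S' y => run (nxt y) S' w)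
        (Meas.comp (hAm S i) Prod.snd) ih
  have hrund : ∀ w : List ℕ, ∀ S : Q, DepFun (Iio δ) fun y => run (nxt y) S w := by
    intro w
    induction w with
    | nil => intro S y y' _; rfl
    | cons i w ih =>
      intro S y y' h
      change run (nxt y) (A S i y).2 w = run (nxt y') (A S i y').2 w
      rw [hAd S i y y' h]
      exact ih _ y y' h
  let B : Pt ℕ Λ → Set Node := fun y => BB (fun S => nd S y) (nxt y) (S0 y)
  have hBd : ∀ y y', (∀ i ∈ Iio δ, y i = y' i) → B y = B y' := by
    intro y y' h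
    ext ρ
    refine exists_congr fun w => ?_
    have h1 : run (nxt y) (S0 y) w = run (nxt y') (S0 y') w := by
      rw [hS0d y y' h]
      exact hrund w _ y y' h
    simp only [h1, hndd _ y y' h]
  have hBm : Measurable B := by
    apply measurable_setNode
    intro σ
    have h1 : {y | σ ∈ B y} = ⋃ w : List ℕ, {y | σ <+: nd (run (nxt y) (S0 y) w) y} := by
      ext y
      simp only [mem_ofPred_eq, mem_iUnion]
      exact Iff.rfl
    rw [h1]
    refine MeasurableSet.iUnion fun w => ?_
    have h2 : Meas fun y => run (nxt y) (S0 y) w :=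
      Meas.bind (f := S0) (g := fun S y => run (nxt y) S w) hS0m (hrunm w)
    have h3 : Meas fun y => nd (run (nxt y) (S0 y) w) y := Meas.bind h2 hndm
    exact Meas.set h3 (P := fun τ _ => σ <+: τ) fun τ => MeasurableSet.const _
  -- the condition
  obtain ⟨q, -, hq1, -⟩ := Cond.exists_of_raw (D := ℕ)
    (fun (i : Λ) (y : Pt ℕ Λ) => if i = δ then B y else p.T i y) univ (to_countable _)
    (fun i hi => (hi trivial).elim)
    (by
      intro i y y' h
      by_cases hi : i = δ
      · simp only [hi, if_true]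
        exact hBd y y' fun j hj => h j trivial (by rw [hi]; exact hj)
      · simp only [hi, if_false]
        exact p.T_congr fun j hj => h j trivial hj)
    (by
      intro i
      by_cases hi : i = δ
      · simpa only [hi, if_true] using hBm
      · simpa only [hi, if_false] using p.meas i)
  have hqT : ∀ i, i ≠ δ → ∀ y, q.T i y = p.T i y := by
    intro i hi y
    have := hq1 i y (by simp only [hi, if_false]; exact p.good i y)
    simpa only [hi, if_false] using this
  have hqp : ∀ y ∈ q.body, y ∈ p.body := by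
    intro y hy
    rw [hp.body_eq]
    intro i hi
    rw [← hqT i (ne_of_lt hi) y]
    exact hy i
  have hqδ : ∀ y ∈ p.body, q.T δ y = B y := by
    intro y hy
    have := hq1 δ y (by
      simp only [if_true]
      exact (hPD y hy).supf (hS0 y hy))
    simpa only [if_true] using this
  -- the states
  have hidx : ∀ (S : Q) (a : ℕ), ∃ f : Pt ℕ Λ → ℕ, Meas f ∧
      (∀ y, (∃ i, dg y S i = a) → dg y S (f y) = a) ∧ DepFun (Iio δ) f := by
    intro S a
    obtain ⟨f, h1, h2, h3⟩ := mcs (Pt ℕ Λ) ℕ (fun y i => dg y S i = a) (by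
      intro i
      exact Meas.comp (hAm S i) Prod.fst a)
    refine ⟨f, h1, h2, fun y y' h => h3 y y' fun i => ?_⟩
    simp only [dg, hAd S i y y' h]
  choose idx hidxm hidx1 hidxd using hidx
  let stp : Q → Pt ℕ Λ → Q := fun S y => nxt y S (idx S (y δ (nd S y).length) y)
  have hdigm : ∀ n : ℕ, Meas fun y : Pt ℕ Λ => y δ n := by
    intro n a
    have h1 : Measurable fun y : Pt ℕ Λ => y δ n :=
      (measurable_pi_apply n).comp (measurable_pi_apply δ)
    exact h1 (measurableSet_singleton a)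
  have hstpm : ∀ S, Meas (stp S) := by
    intro S
    have h1 : Meas fun y : Pt ℕ Λ => y δ (nd S y).length :=
      Meas.bind (f := nd S) (g := fun τ y => y δ τ.length) (hndm S) fun τ => hdigm _
    have h2 : Meas fun y => idx S (y δ (nd S y).length) y :=
      Meas.bind (g := fun a y => idx S a y) h1 (hidxm S)
    exact Meas.bind (f := fun y => idx S (y δ (nd S y).length) y)
      (g := fun i y => (A S i y).2) h2 fun i => Meas.comp (hAm S i) Prod.snd
  have hstpd : ∀ S, DepFun (Iic δ) (stp S) := by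
    intro S y y' h
    have h' : ∀ i ∈ Iio δ, y i = y' i := fun i hi => h i (le_of_lt hi)
    have h2 : y δ = y' δ := h δ (le_refl δ)
    simp only [stp, nxt]
    rw [hndd S y y' h', h2, hidxd S _ y y' h', hAd S _ y y' h']
  let St : ℕ → Pt ℕ Λ → Q := fun n => Nat.rec S0 (fun _ f y => stp (f y) y) n
  have hSt1 : ∀ n y, St (n + 1) y = stp (St n y) y := fun _ _ => rfl
  have hStm : ∀ n, Meas (St n) := by
    intro n
    induction n with
    | zero => exact hS0m
    | succ n ih => exact Meas.bind ih hstpm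
  have hStd : ∀ n, DepFun (Iic δ) (St n) := by
    intro n
    induction n with
    | zero =>
      intro y y' h
      exact hS0d y y' fun i hi => h i (le_of_lt hi)
    | succ n ih =>
      intro y y' h
      rw [hSt1, hSt1, ih y y' h]
      exact hstpd _ y y' h
  have hmain : ∀ y ∈ q.body, ∀ n, St n y ∈ good y ∧
      y δ ∈ body ℕ (BB (fun S => nd S y) (nxt y) (St n y)) := by
    intro y hy n
    have hyp := hqp y hy
    induction n with
    | zero =>
      refine ⟨hS0 y hyp, ?_⟩
      have := hy δ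
      rwa [hqδ y hyp] at this
    | succ n ih =>
      obtain ⟨h1, i, h2, h3⟩ := (hPD y hyp).branch ih.1 ih.2
      have h4 : dg y (St n y) (idx (St n y) (y δ (nd (St n y) y).length) y) =
          y δ (nd (St n y) y).length := hidx1 _ _ y ⟨i, h2⟩
      have h5 : idx (St n y) (y δ (nd (St n y) y).length) y = i :=
        ((hPD y hyp).mono _ ih.1).injective (h4.trans h2.symm)
      have h6 : St (n + 1) y = nxt y (St n y) i := by
        rw [hSt1]
        simp only [stp, h5]
      rw [h6]
      exact ⟨(hPD y hyp).hnxt _ ih.1 i, h3⟩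
  refine ⟨q, St, ?_, ?_, rfl, hStm, hStd, ?_⟩
  · intro i hi y
    have hi' : i ≠ δ := by
      rintro rfl
      exact hi (le_refl i)
    rw [hqT i hi' y]
    exact hp i (fun h => hi (le_of_lt h)) y
  · intro i hi y
    exact hqT i (ne_of_lt hi) y
  · intro y hy n
    have hyp := hqp y hy
    obtain ⟨h1, h2⟩ := hmain y hy n
    obtain ⟨m, hm⟩ := hAW y hyp (St n y) h1 (idx (St n y) (y δ (nd (St n y) y).length) y)
    refine ⟨h1, hm.2.2.1, hm.2.2.2.1, ?_⟩
    intro i hi
    rcases lt_or_eq_of_le (show i ≤ δ from hi) with h3 | h3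
    · exact hg1 y hyp _ h1 i h3
    · subst h3
      exact body_mono ((hPD y hyp).bb_subset h1) h2

end Pool.Agent.Men.RR.H83
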